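import Pool.Agent.helper99.FP.LV

/-!
# Project FP (MP_bf63dc_nt), the places of the tree of far copies
-/

set_option autoImplicit false

namespace Pool.Agent.FPL

open Finset
open Pool.Agent.FR (mean)
open Pool.Agent.DP (Fm)

theorem PLC_XX {J : ℕ} {EE : Type} (Del : Fin (J + 1) → EE → ℤ) (π : Fin (J + 1) → Option EE) :
    XX Del π = XX (fun j => Del j.castSucc) (fun j => π j.castSucc) + (π (Fin.last J)).elim 0 (Del (Fin.last J)) := by
  unfold XX
  rw [Fin.sum_univ_castSucc]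

theorem PLC_XXdvd {J : ℕ} {EE : Type} (Del : Fin J → EE → ℤ) (π : Fin J → Option EE) (D : ℤ) (h : ∀ j i, D ∣ Del j i) : D ∣ XX Del π := by
  unfold XX
  refine Finset.dvd_sum fun j _ => ?_
  cases π j with
  | none => exact dvd_zero D
  | some i => exact h j i

open Classical in
theorem PLC_ind (EE : Type) [Fintype EE] (f : EE → ℤ → ℝ) (c : EE → ℤ) (L : EE → ℕ) (e e₁ : ℝ) (he : 0 < e) (he₁ : 0 < e₁) (hL : ∀ i, 1 ≤ L i)
    (hf : ∀ i x, 0 ≤ f i x ∧ f i x ≤ 1) (hW : ∀ i, Win (f i) (c i) e) : ∀ (J : ℕ) (D₀ : ℕ), 1 ≤ D₀ →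
    ∃ Q : ℕ, 1 ≤ Q ∧ D₀ ∣ Q ∧ ∀ D : ℕ, 1 ≤ D → Q ∣ D → ∀ D' : ℕ, 1 ≤ D' → ∃ l₀ : ℕ, 1 ≤ l₀ ∧ ∀ l : ℕ, l₀ ≤ l → ∀ H : ℕ,
      ∃ Del : Fin J → EE → ℤ, (∀ j i, (D₀ : ℤ) ∣ Del j i) ∧
      ∀ (j : Fin J) (i : EE) (π π' : Fin J → Option EE), π j = some i → π' j = none → (∀ j', j < j' → π j' = π' j') →
        (#{y ∈ Icc (-(H : ℤ)) H | Fm (f i) (D * D') l (c i + (L i : ℤ) * (XX Del π - XX Del π') + (D : ℤ) * y) < e / 2} : ℝ) ≤ e₁ * (2 * H + 1) := by
  intro J
  induction J with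
  | zero =>
    intro D₀ hD₀
    refine ⟨D₀, hD₀, dvd_rfl, fun D _ _ D' _ => ⟨1, le_rfl, fun l _ H => ⟨fun j => j.elim0, fun j => j.elim0, fun j => j.elim0⟩⟩⟩
  | succ J ih =>
    intro D₀ hD₀
    obtain ⟨Lam, hLam⟩ : ∃ Lam : ℕ, Lam = ∏ i, L i := ⟨_, rfl⟩
    have hLam1 : 1 ≤ Lam := by
      rw [hLam]
      refine Nat.one_le_iff_ne_zero.2 (Finset.prod_ne_zero_iff.2 fun i _ => ?_)
      have := hL i
      omega
    have hD1 : 1 ≤ D₀ * Lam := Nat.mul_pos hD₀ hLam1
    obtain ⟨N, hN⟩ : ∃ N : ℕ, N = Fintype.card ((Fin J → Option EE) × (Fin J → Option EE)) := ⟨_, rfl⟩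
    choose q hq1 hqD hq using fun i => PLC_lv (f i) (c i) e e₁ N (D₀ * Lam) he he₁ hD1 (hf i) (hW i)
    have hprod : 1 ≤ ∏ i, q i := by
      refine Nat.one_le_iff_ne_zero.2 (Finset.prod_ne_zero_iff.2 fun i _ => ?_)
      have := hq1 i
      omega
    obtain ⟨Q, hQ1, hQD, hQ⟩ := ih (D₀ * ∏ i, q i) (Nat.mul_pos hD₀ hprod)
    refine ⟨Q, hQ1, dvd_trans (Dvd.intro _ rfl) hQD, fun D hD hQD' D' hD' => ?_⟩
    obtain ⟨l₁, hl₁1, hl₁⟩ := hQ D hD hQD' D' hD'
    have hqdvd : ∀ i, q i ∣ D := fun i =>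
      dvd_trans (dvd_trans (Dvd.dvd.mul_left (Finset.dvd_prod_of_mem q (Finset.mem_univ i)) D₀) hQD) hQD'
    choose r hr using hqdvd
    have hr1 : ∀ i, 1 ≤ r i := by
      intro i
      rcases Nat.eq_zero_or_pos (r i) with h | h
      · have := hr i
        rw [h, mul_zero] at this
        omega
      · exact h
    choose l₂ hl₂1 hl₂ using fun i => hq i (r i * D') (Nat.mul_pos (hr1 i) hD')
    refine ⟨l₁ + ∑ i, l₂ i, le_trans hl₁1 (Nat.le_add_right _ _), fun l hl H => ?_⟩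
    obtain ⟨Del₁, hDel₁, hF₁⟩ := hl₁ l (le_trans (Nat.le_add_right _ _) hl) H
    have hl₂' : ∀ i, l₂ i ≤ l := fun i =>
      le_trans (le_trans (Finset.single_le_sum (f := l₂) (fun _ _ => Nat.zero_le _) (Finset.mem_univ i)) (Nat.le_add_left _ _)) hl
    let O : EE → Finset ℤ := fun i => (univ : Finset ((Fin J → Option EE) × (Fin J → Option EE))).image
      (fun z => (L i : ℤ) * (XX Del₁ z.1 - XX Del₁ z.2) / (q i))
    have hO : ∀ i, #(O i) ≤ N := by
      intro i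
      refine le_trans Finset.card_image_le ?_
      rw [hN, Finset.card_univ]
    choose y₀ hy₀ hy₀' using fun i => hl₂ i l (hl₂' i) (r i) H (O i) (hO i)
    have hLd : ∀ i, (L i : ℤ) ∣ y₀ i - c i := by
      intro i
      refine dvd_trans ?_ (hy₀ i)
      have h1 : L i ∣ D₀ * Lam := by
        rw [hLam]
        exact Dvd.dvd.mul_left (Finset.dvd_prod_of_mem L (Finset.mem_univ i)) D₀
      exact_mod_cast h1
    let top : EE → ℤ := fun i => (y₀ i - c i) / (L i)
    have htop : ∀ i, (L i : ℤ) * top i = y₀ i - c i := fun i => Int.mul_ediv_cancel' (hLd i)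
    have htopd : ∀ i, (D₀ : ℤ) ∣ top i := by
      intro i
      obtain ⟨t, ht⟩ := hy₀ i
      obtain ⟨M, hM⟩ : L i ∣ Lam := by
        rw [hLam]
        exact Finset.dvd_prod_of_mem L (Finset.mem_univ i)
      refine ⟨M * t, ?_⟩
      have hL0 : (L i : ℤ) ≠ 0 := by
        have := hL i
        omega
      apply mul_left_cancel₀ hL0
      rw [htop i, ht, hM]
      push_cast
      ring
    refine ⟨Fin.snoc (α := fun _ => EE → ℤ) Del₁ top, ?_, ?_⟩
    · intro j
      refine Fin.lastCases ?_ (fun j' => ?_) j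
      · intro i
        rw [Fin.snoc_last]
        exact htopd i
      · intro i
        rw [Fin.snoc_castSucc]
        refine dvd_trans ?_ (hDel₁ j' i)
        push_cast
        exact Dvd.intro _ rfl
    · have hcs : (fun j : Fin J => (Fin.snoc (α := fun _ => EE → ℤ) Del₁ top : Fin (J + 1) → EE → ℤ) j.castSucc) = Del₁ := by
        funext j
        rw [Fin.snoc_castSucc]
      have hla : (Fin.snoc (α := fun _ => EE → ℤ) Del₁ top : Fin (J + 1) → EE → ℤ) (Fin.last J) = top := Fin.snoc_last _ _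
      intro j
      refine Fin.lastCases ?_ (fun j₁ => ?_) j
      · intro i π π' hπ hπ' _
        have hX : XX (Fin.snoc (α := fun _ => EE → ℤ) Del₁ top) π - XX (Fin.snoc (α := fun _ => EE → ℤ) Del₁ top) π' =
            top i + (XX Del₁ (fun j => π j.castSucc) - XX Del₁ (fun j => π' j.castSucc)) := by
          rw [PLC_XX, PLC_XX, hcs, hla, hπ, hπ']
          simp only [Option.elim]
          ring
        obtain ⟨o, ho⟩ : ∃ o : ℤ, o = (L i : ℤ) * (XX Del₁ (fun j => π j.castSucc) - XX Del₁ (fun j => π' j.castSucc)) / (q i) := ⟨_, rfl⟩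
        have hoO : o ∈ O i := by
          rw [ho]
          exact Finset.mem_image.2 ⟨(fun j => π j.castSucc, fun j => π' j.castSucc), Finset.mem_univ _, rfl⟩
        have hqX : (q i : ℤ) * o = (L i : ℤ) * (XX Del₁ (fun j => π j.castSucc) - XX Del₁ (fun j => π' j.castSucc)) := by
          rw [ho]
          refine Int.mul_ediv_cancel' (Dvd.dvd.mul_left ?_ _)
          have h1 : ∀ j i', (q i : ℤ) ∣ Del₁ j i' := by
            intro j i'
            refine dvd_trans ?_ (hDel₁ j i')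
            have h2 : q i ∣ D₀ * ∏ i, q i := Dvd.dvd.mul_left (Finset.dvd_prod_of_mem q (Finset.mem_univ i)) D₀
            exact_mod_cast h2
          exact dvd_sub (PLC_XXdvd _ _ _ h1) (PLC_XXdvd _ _ _ h1)
        have h3 := hy₀' i o hoO
        have hDD : q i * (r i * D') = D * D' := by
          rw [← mul_assoc, ← hr i]
        rw [hDD] at h3
        refine le_trans (le_of_eq ?_) h3
        congr 2
        ext y
        have h4 : c i + (L i : ℤ) * (XX (Fin.snoc (α := fun _ => EE → ℤ) Del₁ top) π - XX (Fin.snoc (α := fun _ => EE → ℤ) Del₁ top) π') + (D : ℤ) * y =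
            y₀ i + (q i : ℤ) * o + (q i : ℤ) * (r i) * y := by
          rw [hX, mul_add, htop i, ← hqX]
          have h5 : (D : ℤ) = (q i : ℤ) * (r i) := by exact_mod_cast hr i
          rw [h5]
          ring
        rw [Finset.mem_filter, Finset.mem_filter, h4]
      · intro i π π' hπ hπ' hup
        have hlast : π (Fin.last J) = π' (Fin.last J) := hup _ (Fin.castSucc_lt_last j₁)
        have hX : XX (Fin.snoc (α := fun _ => EE → ℤ) Del₁ top) π - XX (Fin.snoc (α := fun _ => EE → ℤ) Del₁ top) π' =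
            XX Del₁ (fun j => π j.castSucc) - XX Del₁ (fun j => π' j.castSucc) := by
          rw [PLC_XX, PLC_XX, hcs, hla, hlast]
          ring
        rw [hX]
        exact hF₁ j₁ i (fun j => π j.castSucc) (fun j => π' j.castSucc) hπ hπ' (fun j' hj' => hup j'.castSucc (Fin.castSucc_lt_castSucc_iff.2 hj'))

/-- **PLC**: places -/
theorem PLC : PLC_stmt := by
  classical
  intro J EE _ f c L e e₁ D₀ he _ he₁ hD₀ hL hf hW
  obtain ⟨Q, hQ1, hQD, hQ⟩ := PLC_ind EE f c L e e₁ he he₁ hL hf hW J D₀ hD₀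
  refine ⟨Q, hQ1, hQD, fun D hD hQD' D' hD' => ?_⟩
  obtain ⟨l₀, hl₀, h⟩ := hQ D hD hQD' D' hD'
  refine ⟨l₀, hl₀, fun H => ?_⟩
  obtain ⟨Del, h1, h2⟩ := h l₀ le_rfl H
  refine ⟨Del, h1, fun j i π π' hπ hπ' hup => ?_⟩
  have h3 := h2 j i π π' hπ hπ' hup
  refine le_trans (le_of_eq ?_) h3
  congr 2

end Pool.Agent.FPL
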