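import Pool.Agent.helper76.FP.Spec
import Pool.Agent.helper99.FP.PLI

/-!
# Project FP (MP_bf63dc_nt), row `fp:PLC`: the places of the tree of far copies
-/

set_option autoImplicit false

namespace Pool.Agent.FP

theorem PLC : PLC_stmt := by
  classical
  intro J EE _ f c L ε e₁ D₀ hε hε1 he₁ hD₀ hL hf hW
  obtain ⟨Q, h1, h2, h3⟩ := Pool.Agent.FPL.PLC J EE f c L ε e₁ D₀ hε hε1 he₁ hD₀ hL hf hW
  refine ⟨Q, h1, h2, fun D hD hQD D' hD' => ?_⟩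
  obtain ⟨l, hl, h4⟩ := h3 D hD hQD D' hD'
  refine ⟨l, hl, fun H => ?_⟩
  obtain ⟨Del, h5, h6⟩ := h4 H
  refine ⟨Del, h5, fun j i π π' hπ hπ' hup => ?_⟩
  refine le_trans (le_of_eq ?_) (h6 j i π π' hπ hπ' hup)
  congr 2

end Pool.Agent.FP
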