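import Pool.Agent.helper99.FP.PLCS

/-!
# Project FP (MP_bf63dc_nt): one level of the tree of far copies
-/

set_option autoImplicit false

namespace Pool.Agent.FPL

open Finset
open Pool.Agent.FR (mean)
open Pool.Agent.DP (Fm)

/-- extremal step and density -/
theorem PLC_ext (f : ℤ → ℝ) (c : ℤ) (e e₀ : ℝ) (D : ℕ) (he₀ : 0 < e₀) (hD : 1 ≤ D) (hf : ∀ x, 0 ≤ f x ∧ f x ≤ 1) (hW : Win f c e) :
    ∃ (q : ℕ) (δ : ℝ), 1 ≤ q ∧ D ∣ q ∧ e ≤ δ ∧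
      (∀ M₀ : ℕ, ∃ M : ℕ, M₀ ≤ M ∧ ∃ y : ℤ, (D : ℤ) ∣ y - c ∧ (δ - e₀) * M ≤ ∑ k ∈ range M, f (y + (q : ℤ) * ((k : ℕ) : ℤ))) ∧
      ∀ s : ℕ, 1 ≤ s → ∃ l₀ : ℕ, 1 ≤ l₀ ∧ ∀ l : ℕ, l₀ ≤ l → ∀ y : ℤ, (D : ℤ) ∣ y - c →
        ∑ k ∈ range l, f (y + ((q * s : ℕ) : ℤ) * ((k : ℕ) : ℤ)) ≤ (δ + e₀) * l := by
  let P : ℕ → ℝ → Prop := fun q t => ∀ M₀ : ℕ, ∃ M : ℕ, M₀ ≤ M ∧ ∃ y : ℤ, (D : ℤ) ∣ y - c ∧ t * M ≤ ∑ k ∈ range M, f (y + (q : ℤ) * ((k : ℕ) : ℤ))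
  let S : Set ℝ := {t | ∃ q : ℕ, 1 ≤ q ∧ D ∣ q ∧ P q t}
  have heS : e ∈ S := hW D hD
  have hbd : ∀ t ∈ S, t ≤ 1 := by
    rintro t ⟨q, -, -, hP⟩
    obtain ⟨M, hM, y, -, h⟩ := hP 1
    have h1 : ∑ k ∈ range M, f (y + (q : ℤ) * ((k : ℕ) : ℤ)) ≤ ∑ k ∈ range M, (1 : ℝ) := Finset.sum_le_sum fun k _ => (hf _).2
    rw [Finset.sum_const, Finset.card_range, nsmul_eq_mul, mul_one] at h1
    have hM' : (1 : ℝ) ≤ M := by exact_mod_cast hM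
    by_contra hc
    push Not at hc
    nlinarith
  have hBdd : BddAbove S := ⟨1, hbd⟩
  have hlt : sSup S - e₀ < sSup S := by linarith
  obtain ⟨t, ⟨q, hq1, hqD, hP⟩, ht⟩ := exists_lt_of_lt_csSup ⟨e, heS⟩ hlt
  refine ⟨q, sSup S, hq1, hqD, le_csSup hBdd heS, ?_, ?_⟩
  · intro M₀
    obtain ⟨M, hM, y, hy, h⟩ := hP M₀
    refine ⟨M, hM, y, hy, le_trans ?_ h⟩
    exact mul_le_mul_of_nonneg_right ht.le (Nat.cast_nonneg M)
  · intro s hs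
    have hns : ¬ P (q * s) (sSup S + e₀) := by
      intro hP'
      have h1 : sSup S + e₀ ∈ S := ⟨q * s, Nat.mul_pos hq1 hs, Dvd.dvd.mul_right hqD s, hP'⟩
      have := le_csSup hBdd h1
      linarith
    have hns' : ∃ M₀ : ℕ, ∀ M : ℕ, M₀ ≤ M → ∀ y : ℤ, (D : ℤ) ∣ y - c →
        ∑ k ∈ range M, f (y + ((q * s : ℕ) : ℤ) * ((k : ℕ) : ℤ)) < (sSup S + e₀) * M := by
      by_contra hc
      push Not at hc
      exact hns hc
    obtain ⟨M₀, hM₀⟩ := hns'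
    refine ⟨max M₀ 1, le_max_right _ _, fun l hl y hy => ?_⟩
    exact (hM₀ l (le_trans (le_max_left _ _) hl) y hy).le

theorem PLC_shift (g : ℕ → ℝ) (hg : ∀ u, 0 ≤ g u ∧ g u ≤ 1) (M a : ℕ) : ∑ u ∈ range M, g u - a ≤ ∑ u ∈ range M, g (a + u) := by
  have h1 : ∑ u ∈ range (a + M), g u = ∑ u ∈ range a, g u + ∑ u ∈ range M, g (a + u) := Finset.sum_range_add g a M
  have h2 : ∑ u ∈ range M, g u ≤ ∑ u ∈ range (a + M), g u :=
    Finset.sum_le_sum_of_subset_of_nonneg (Finset.range_mono (Nat.le_add_left M a)) fun u _ _ => (hg u).1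
  have h3 : ∑ u ∈ range a, g u ≤ ∑ u ∈ range a, (1 : ℝ) := Finset.sum_le_sum fun u _ => (hg u).2
  rw [Finset.sum_const, Finset.card_range, nsmul_eq_mul, mul_one] at h3
  linarith

theorem PLC_Fm (f : ℤ → ℝ) (Q l : ℕ) (x : ℤ) : Fm f Q l x = (∑ k ∈ range l, f (x + (Q : ℤ) * ((k : ℕ) : ℤ))) / l := by
  unfold Fm mean
  rw [Fintype.card_fin, Finset.sum_range (fun k : ℕ => f (x + (Q : ℤ) * ((k : ℕ) : ℤ)))]

open Classical in
/-- few bad points in a dense window -/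
theorem PLC_win (f : ℤ → ℝ) (e e₀ δ : ℝ) (q s l M : ℕ) (y : ℤ) (he : 0 < e) (he₀ : 0 < e₀) (hl : 1 ≤ l) (hf : ∀ x, 0 ≤ f x ∧ f x ≤ 1) (hδ : e ≤ δ)
    (hlow : (δ - e₀) * M ≤ ∑ k ∈ range M, f (y + (q : ℤ) * ((k : ℕ) : ℤ)))
    (hup : ∀ u : ℕ, ∑ k ∈ range l, f (y + (q : ℤ) * ((u : ℕ) : ℤ) + ((q * s : ℕ) : ℤ) * ((k : ℕ) : ℤ)) ≤ (δ + e₀) * l) (hM : (s : ℝ) * l ≤ e₀ * M) :
    (#{u ∈ range M | Fm f (q * s) l (y + (q : ℤ) * ((u : ℕ) : ℤ)) < e / 2} : ℝ) * e ≤ 6 * e₀ * M := by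
  have hl' : (0 : ℝ) < l := by exact_mod_cast hl
  set F : ℕ → ℝ := fun u => Fm f (q * s) l (y + (q : ℤ) * ((u : ℕ) : ℤ)) with hF
  have hFu : ∀ u, F u ≤ δ + e₀ := by
    intro u
    rw [hF]
    simp only
    rw [PLC_Fm, div_le_iff₀ hl']
    exact hup u
  have hsum : (δ - e₀) * M - s * l ≤ ∑ u ∈ range M, F u := by
    have h1 : ∑ u ∈ range M, F u = (∑ k ∈ range l, ∑ u ∈ range M, f (y + (q : ℤ) * (((s * k + u : ℕ) : ℕ) : ℤ))) / l := by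
      simp only [hF, PLC_Fm]
      rw [← Finset.sum_div, Finset.sum_comm]
      congr 1
      refine Finset.sum_congr rfl fun k _ => Finset.sum_congr rfl fun u _ => ?_
      congr 1
      push_cast
      ring
    rw [h1, le_div_iff₀ hl']
    have h2 : ∀ k ∈ range l, (δ - e₀) * M - s * l ≤ ∑ u ∈ range M, f (y + (q : ℤ) * (((s * k + u : ℕ) : ℕ) : ℤ)) := by
      intro k hk
      have h3 := PLC_shift (fun u => f (y + (q : ℤ) * ((u : ℕ) : ℤ))) (fun u => hf _) M (s * k)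
      have h4 : ((s * k : ℕ) : ℝ) ≤ s * l := by
        push_cast
        have : (k : ℝ) ≤ l := by exact_mod_cast (Finset.mem_range.1 hk).le
        exact mul_le_mul_of_nonneg_left this (Nat.cast_nonneg s)
      linarith
    have h5 := Finset.card_nsmul_le_sum (range l) _ _ h2
    rw [Finset.card_range, nsmul_eq_mul] at h5
    linarith
  have hbad : (#{u ∈ range M | F u < e / 2} : ℝ) * (e / 2) ≤ ∑ u ∈ range M, (δ + e₀ - F u) := by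
    rw [← nsmul_eq_mul, ← Finset.sum_const, Finset.sum_filter]
    refine Finset.sum_le_sum fun u _ => ?_
    split_ifs with h
    · linarith
    · linarith [hFu u]
  rw [Finset.sum_sub_distrib, Finset.sum_const, Finset.card_range, nsmul_eq_mul] at hbad
  nlinarith

open Classical in
/-- **LV** one level -/
theorem PLC_lv (f : ℤ → ℝ) (c : ℤ) (e e₁ : ℝ) (N D : ℕ) (he : 0 < e) (he₁ : 0 < e₁) (hD : 1 ≤ D) (hf : ∀ x, 0 ≤ f x ∧ f x ≤ 1) (hW : Win f c e) :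
    ∃ q : ℕ, 1 ≤ q ∧ D ∣ q ∧ ∀ s : ℕ, 1 ≤ s → ∃ l₀ : ℕ, 1 ≤ l₀ ∧ ∀ l : ℕ, l₀ ≤ l → ∀ (r H : ℕ) (O : Finset ℤ), #O ≤ N →
      ∃ y₀ : ℤ, (D : ℤ) ∣ y₀ - c ∧ ∀ o ∈ O,
        (#{y ∈ Icc (-(H : ℤ)) H | Fm f (q * s) l (y₀ + (q : ℤ) * o + (q : ℤ) * r * y) < e / 2} : ℝ) ≤ e₁ * (2 * H + 1) := by
  set e₀ : ℝ := e * e₁ / (24 * (N + 1)) with he₀
  have hN : (0 : ℝ) < 24 * (N + 1) := by positivity
  have he₀p : 0 < e₀ := by positivity
  obtain ⟨q, δ, hq1, hqD, hδ, hlow, hup⟩ := PLC_ext f c e e₀ D he₀p hD hf hW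
  refine ⟨q, hq1, hqD, fun s hs => ?_⟩
  obtain ⟨l₀, hl₀, hl₀'⟩ := hup s hs
  refine ⟨l₀, hl₀, fun l hl r H O hO => ?_⟩
  have hl1 : 1 ≤ l := le_trans hl₀ hl
  obtain ⟨B, hB⟩ : ∃ B : ℕ, ∀ o ∈ O, ∀ t ∈ Icc (-(H : ℤ)) H, |o + r * t| ≤ (B : ℤ) := by
    refine ⟨∑ o ∈ O, (o.natAbs + r * H), fun o ho t ht => ?_⟩
    have h1 : o.natAbs + r * H ≤ ∑ o ∈ O, (o.natAbs + r * H) := Finset.single_le_sum (f := fun o : ℤ => o.natAbs + r * H) (fun _ _ => Nat.zero_le _) ho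
    have h2 : |(r : ℤ) * t| ≤ r * H := by
      rw [abs_mul, abs_of_nonneg (Int.natCast_nonneg r)]
      refine mul_le_mul_of_nonneg_left ?_ (Int.natCast_nonneg r)
      rw [Finset.mem_Icc] at ht
      exact abs_le.2 ht
    calc |o + r * t| ≤ |o| + |(r : ℤ) * t| := abs_add_le _ _
      _ ≤ |o| + r * H := by linarith
      _ = ((o.natAbs + r * H : ℕ) : ℤ) := by
          push_cast
          rfl
      _ ≤ _ := by exact_mod_cast h1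
  obtain ⟨M₁, hM₁⟩ := exists_nat_gt ((s : ℝ) * l / e₀)
  obtain ⟨M, hM, y, hy, hlow'⟩ := hlow (max M₁ (4 * B + 1))
  have hMB : 4 * B + 1 ≤ M := le_trans (le_max_right _ _) hM
  have hMs : (s : ℝ) * l ≤ e₀ * M := by
    have h1 : ((M₁ : ℕ) : ℝ) ≤ M := by exact_mod_cast le_trans (le_max_left _ _) hM
    have h2 : (s : ℝ) * l / e₀ ≤ M := le_trans hM₁.le h1
    rw [div_le_iff₀ he₀p] at h2
    linarith
  have hup' : ∀ u : ℕ, ∑ k ∈ range l, f (y + (q : ℤ) * ((u : ℕ) : ℤ) + ((q * s : ℕ) : ℤ) * ((k : ℕ) : ℤ)) ≤ (δ + e₀) * l := by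
    intro u
    refine hl₀' l hl _ ?_
    have h1 : (D : ℤ) ∣ (q : ℤ) * ((u : ℕ) : ℤ) := Dvd.dvd.mul_right (by exact_mod_cast hqD) _
    have h2 := dvd_add hy h1
    have h3 : y - c + (q : ℤ) * ((u : ℕ) : ℤ) = y + (q : ℤ) * ((u : ℕ) : ℤ) - c := by ring
    rwa [h3] at h2
  have hbad := PLC_win f e e₀ δ q s l M y he he₀p hl1 hf hδ hlow' hup' hMs
  -- the bad places of the window
  set Z : Finset ℤ := (range M).filter (fun u => Fm f (q * s) l (y + (q : ℤ) * ((u : ℕ) : ℤ)) < e / 2) |>.image (fun u : ℕ => (u : ℤ)) with hZ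
  have hZc : (#Z : ℝ) * e ≤ 6 * e₀ * M := by
    have h1 : #Z ≤ #{u ∈ range M | Fm f (q * s) l (y + (q : ℤ) * ((u : ℕ) : ℤ)) < e / 2} := Finset.card_image_le
    have h2 : (#Z : ℝ) ≤ (#{u ∈ range M | Fm f (q * s) l (y + (q : ℤ) * ((u : ℕ) : ℤ)) < e / 2} : ℝ) := by exact_mod_cast h1
    nlinarith
  by_contra hcon
  push Not at hcon
  set I : Finset ℤ := Ico (B : ℤ) (M - B) with hI
  have hIc : (#I : ℝ) = M - 2 * B := by
    rw [hI, Int.card_Ico]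
    have h1 : ((M : ℤ) - B - B).toNat = M - 2 * B := by omega
    rw [h1, Nat.cast_sub (by omega)]
    push_cast
    ring
  have hfail : ∀ x ∈ I, ∃ o ∈ O, e₁ * (2 * H + 1) < (#{t ∈ Icc (-(H : ℤ)) H | x + o + r * t ∈ Z} : ℝ) := by
    intro x hx
    have hdx : (D : ℤ) ∣ (y + (q : ℤ) * x) - c := by
      have h1 : (D : ℤ) ∣ (q : ℤ) * x := Dvd.dvd.mul_right (by exact_mod_cast hqD) _
      have h2 := dvd_add hy h1
      have h3 : y - c + (q : ℤ) * x = y + (q : ℤ) * x - c := by ring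
      rwa [h3] at h2
    obtain ⟨o, ho, hlt⟩ := hcon (y + (q : ℤ) * x) hdx
    refine ⟨o, ho, lt_of_lt_of_le hlt ?_⟩
    refine Nat.cast_le.2 (Finset.card_le_card fun t ht => ?_)
    rw [Finset.mem_filter] at ht ⊢
    refine ⟨ht.1, ?_⟩
    have h1 := abs_le.1 (hB o ho t ht.1)
    rw [hI, Finset.mem_Ico] at hx
    have h2 : 0 ≤ x + o + r * t := by linarith [h1.1, hx.1]
    have h3 : x + o + r * t < M := by linarith [h1.2, hx.2]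
    obtain ⟨u, hu⟩ := Int.eq_ofNat_of_zero_le h2
    rw [hZ, Finset.mem_image]
    refine ⟨u, ?_, hu.symm⟩
    rw [Finset.mem_filter, Finset.mem_range]
    refine ⟨by omega, ?_⟩
    have h4 : y + (q : ℤ) * x + (q : ℤ) * o + (q : ℤ) * r * t = y + (q : ℤ) * ((u : ℕ) : ℤ) := by
      rw [← hu]
      ring
    rw [← h4]
    exact ht.2
  have hsum1 : ∑ x ∈ I, (e₁ * (2 * H + 1)) ≤ ∑ x ∈ I, ∑ o ∈ O, (#{t ∈ Icc (-(H : ℤ)) H | x + o + r * t ∈ Z} : ℝ) := by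
    refine Finset.sum_le_sum fun x hx => ?_
    obtain ⟨o, ho, hlt⟩ := hfail x hx
    exact le_trans hlt.le (Finset.single_le_sum (f := fun o : ℤ => (#{t ∈ Icc (-(H : ℤ)) H | x + o + r * t ∈ Z} : ℝ)) (fun _ _ => Nat.cast_nonneg _) ho)
  have hsum2 : ∑ x ∈ I, ∑ o ∈ O, (#{t ∈ Icc (-(H : ℤ)) H | x + o + r * t ∈ Z} : ℝ) ≤ #O * ((2 * H + 1) * #Z) := by
    rw [Finset.sum_comm]
    have h1 : ∀ o ∈ O, ∑ x ∈ I, (#{t ∈ Icc (-(H : ℤ)) H | x + o + r * t ∈ Z} : ℝ) ≤ (2 * H + 1) * #Z := by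
      intro o _
      have h2 : ∑ x ∈ I, (#{t ∈ Icc (-(H : ℤ)) H | x + o + r * t ∈ Z} : ℝ) = ∑ t ∈ Icc (-(H : ℤ)) H, (#{x ∈ I | x + o + r * t ∈ Z} : ℝ) := by
        simp_rw [Finset.card_filter]
        push_cast
        rw [Finset.sum_comm]
      rw [h2]
      have h3 : ∀ t ∈ Icc (-(H : ℤ)) H, (#{x ∈ I | x + o + r * t ∈ Z} : ℝ) ≤ #Z := by
        intro t _
        refine Nat.cast_le.2 (Finset.card_le_card_of_injOn (fun x => x + o + r * t) (fun x hx => ?_) (fun x _ x' _ h => ?_))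
        · exact (Finset.mem_filter.1 hx).2
        · simpa using h
      have h4 := Finset.sum_le_card_nsmul _ _ _ h3
      rw [nsmul_eq_mul, Int.card_Icc] at h4
      have h5 : (((H : ℤ) + 1 - (-(H : ℤ))).toNat : ℝ) = 2 * H + 1 := by
        have h6 : ((H : ℤ) + 1 - (-(H : ℤ))).toNat = 2 * H + 1 := by omega
        rw [h6]
        push_cast
        ring
      rwa [h5] at h4
    have h7 := Finset.sum_le_card_nsmul _ _ _ h1
    rwa [nsmul_eq_mul] at h7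
  rw [Finset.sum_const, nsmul_eq_mul, hIc] at hsum1
  have hO' : (#O : ℝ) ≤ N := by exact_mod_cast hO
  have hH : (0 : ℝ) < 2 * H + 1 := by positivity
  have hZ0 : (0 : ℝ) ≤ #Z := Nat.cast_nonneg _
  have hfin : ((M : ℝ) - 2 * B) * e₁ ≤ N * #Z := by
    have h1 : ((M : ℝ) - 2 * B) * (e₁ * (2 * H + 1)) ≤ N * ((2 * H + 1) * #Z) :=
      le_trans (le_trans hsum1 hsum2) (mul_le_mul_of_nonneg_right hO' (by positivity))
    have h2 : (((M : ℝ) - 2 * B) * e₁) * (2 * H + 1) ≤ (N * #Z) * (2 * H + 1) := by linarith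
    exact le_of_mul_le_mul_right h2 hH
  have hMB' : 4 * (B : ℝ) + 1 ≤ M := by exact_mod_cast hMB
  have hM0 : (0 : ℝ) < M := by
    have : (0 : ℝ) ≤ B := Nat.cast_nonneg B
    linarith
  -- (M / 2) e₁ e ≤ (M - 2 B) e₁ e ≤ N #Z e ≤ 6 N e₀ M ≤ M e e₁ / 4
  have h8 : ((M : ℝ) - 2 * B) * e₁ * e ≤ N * (6 * e₀ * M) := by
    calc ((M : ℝ) - 2 * B) * e₁ * e ≤ N * #Z * e := mul_le_mul_of_nonneg_right hfin he.le
      _ = N * (#Z * e) := by ring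
      _ ≤ _ := mul_le_mul_of_nonneg_left hZc (Nat.cast_nonneg N)
  have h9 : (N : ℝ) * (6 * e₀ * M) ≤ e * e₁ * M / 4 := by
    rw [he₀]
    have h10 : (N : ℝ) * (6 * (e * e₁ / (24 * (N + 1))) * M) = (e * e₁ * M / 4) * (N / (N + 1)) := by
      field_simp
      ring
    rw [h10]
    have h11 : (N : ℝ) / (N + 1) ≤ 1 := by
      rw [div_le_one (by positivity)]
      linarith
    exact mul_le_of_le_one_right (by positivity) h11
  have h12 : (M : ℝ) / 2 ≤ M - 2 * B := by linarith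
  have h13 : (M : ℝ) / 2 * e₁ * e ≤ ((M : ℝ) - 2 * B) * e₁ * e := by
    refine mul_le_mul_of_nonneg_right (mul_le_mul_of_nonneg_right h12 he₁.le) he.le
  have h14 : 0 < e * e₁ * M := by positivity
  linarith

end Pool.Agent.FPL
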