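import Pool.Agent.helper76.DP.Spec

/-!
# Project FP (MP_bf63dc_nt): places for the tree of far copies
-/

set_option autoImplicit false

namespace Pool.Agent.FPL

open Finset
open Pool.Agent.FR (mean)
open Pool.Agent.DP (Fm)

/-- the shift of a tree vertex -/
def XX {J : ℕ} {EE : Type} (Del : Fin J → EE → ℤ) (π : Fin J → Option EE) : ℤ := ∑ j, (π j).elim 0 (Del j)

/-- dense windows: for every `D` some progression of a step divisible by `D` inside the class `c` modulo `D` has arbitrarily long windows of density at least `e` -/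
def Win (f : ℤ → ℝ) (c : ℤ) (e : ℝ) : Prop := ∀ D : ℕ, 1 ≤ D → ∃ q : ℕ, 1 ≤ q ∧ D ∣ q ∧ ∀ M₀ : ℕ, ∃ M : ℕ, M₀ ≤ M ∧ ∃ y : ℤ, (D : ℤ) ∣ y - c ∧
  e * M ≤ ∑ k ∈ range M, f (y + (q : ℤ) * ((k : ℕ) : ℤ))

open Classical in
/-- **PLC** (places). -/
def PLC_stmt : Prop := ∀ (J : ℕ) (EE : Type) [Fintype EE] (f : EE → ℤ → ℝ) (c : EE → ℤ) (L : EE → ℕ) (e e₁ : ℝ) (D₀ : ℕ), 0 < e → e ≤ 1 → 0 < e₁ → 1 ≤ D₀ → (∀ i, 1 ≤ L i) →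
  (∀ i x, 0 ≤ f i x ∧ f i x ≤ 1) → (∀ i, Win (f i) (c i) e) →
  ∃ Q : ℕ, 1 ≤ Q ∧ D₀ ∣ Q ∧ ∀ D : ℕ, 1 ≤ D → Q ∣ D → ∀ D' : ℕ, 1 ≤ D' → ∃ l : ℕ, 1 ≤ l ∧ ∀ H : ℕ, ∃ Del : Fin J → EE → ℤ, (∀ j i, (D₀ : ℤ) ∣ Del j i) ∧
    ∀ (j : Fin J) (i : EE) (π π' : Fin J → Option EE), π j = some i → π' j = none → (∀ j', j < j' → π j' = π' j') →
      (#{y ∈ Icc (-(H : ℤ)) H | Fm (f i) (D * D') l (c i + (L i : ℤ) * (XX Del π - XX Del π') + (D : ℤ) * y) < e / 2} : ℝ) ≤ e₁ * (2 * H + 1)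

end Pool.Agent.FPL
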